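import Pool.Agent.Helper74.UB.Goals3

set_option autoImplicit false

namespace Pool.Agent.Helper49.UB

open Finset Equiv Helper28.VF
open scoped Classical
open Pool.Agent.Helper74.UB

theorem phiv : StmtPhiV := by
  intro V _ L hL φ hφ hvt
  have _hfin : Finite (DL L) := inferInstance
  have hσ : ∀ d, (φ * L.al) d = φ (L.al d) := fun d => rfl
  have hstep : ∀ d, (φ * L.al).SameCycle d (φ (L.al d)) := by
    intro d
    exact ⟨1, by rw [zpow_one]; rfl⟩
  have halal : ∀ d, L.al (L.al d) = d := by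
    intro d
    rcases d with ⟨v, b⟩ | ⟨p, b⟩ <;> simp [Lay.al]
  have hvσ : ∀ d, L.vt ((φ * L.al) d) = L.vt d := by
    intro d
    rw [hσ, hvt, halal]
  have hrs : ∀ w, L.row (L.e.symm w) = L.row w := by
    intro w
    have h1 := hL.row_e (L.e.symm w)
    rw [Equiv.apply_symm_apply] at h1
    exact h1.symm
  -- (a)
  have hA : ∀ (v k : V) (a : L.up v k),
      (φ * L.al).SameCycle (Sum.inr (⟨(v, k), a⟩, true)) (Sum.inl (v, true)) := by
    intro v k a
    by_contra hne
    have hall : ∀ n : ℕ, ∃ b : L.up v ((L.e)^[n] k),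
        (φ * L.al).SameCycle (Sum.inr (⟨(v, k), a⟩, true))
          (Sum.inr (⟨(v, (L.e)^[n] k), b⟩, true)) := by
      intro n
      induction n with
      | zero => exact ⟨a, Equiv.Perm.SameCycle.refl _ _⟩
      | succ n ih =>
        obtain ⟨b, hb⟩ := ih
        have h1 := hstep (Sum.inr (⟨(v, (L.e)^[n] k), b⟩, true))
        have h2 : L.al (Sum.inr (⟨(v, (L.e)^[n] k), b⟩, true)) =
          Sum.inr (⟨(v, (L.e)^[n] k), b⟩, false) := rfl
        rw [h2] at h1
        by_cases hc : L.up v (L.e ((L.e)^[n] k))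
        · rw [hφ.N1 v _ b hc] at h1
          have h3 : (L.e)^[n + 1] k = L.e ((L.e)^[n] k) := Function.iterate_succ_apply' _ _ _
          rw [h3]
          exact ⟨hc, hb.trans h1⟩
        · rw [hφ.N2 v _ b hc] at h1
          exact absurd (hb.trans h1) hne
    have hr1 : L.row v < L.r1 := by
      have h1 := hL.up_row v k a
      have h2 := (hL.bnd k).2
      omega
    obtain ⟨k₀, ⟨hk1, hk2⟩, _⟩ := hL.ul v hr1
    have h4 : L.row k = L.row (L.e.symm k₀) := by
      rw [hrs, hL.up_row v k a, hL.up_row v k₀ hk1]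
    obtain ⟨n, hn⟩ := hL.cyc k (L.e.symm k₀) h4
    obtain ⟨b, _⟩ := hall n
    rw [hn] at b
    exact hk2 b
  -- (b)
  have hB : ∀ w : V, (φ * L.al).SameCycle (Sum.inl (w, false)) (Sum.inl (L.e w, true)) := by
    intro w
    have h1 := hstep (Sum.inl (w, false))
    have h2 : L.al (Sum.inl (w, false)) = Sum.inl (w, true) := rfl
    rw [h2] at h1
    by_cases hr : L.row w = L.r1
    · rw [hφ.E1 w hr] at h1
      exact h1
    · have hr1 : L.row (L.e w) < L.r1 := by
        have h3 := hL.row_e w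
        have h4 := (hL.bnd w).2
        omega
      obtain ⟨k₀, ⟨hk1, hk2⟩, _⟩ := hL.ul (L.e w) hr1
      rw [hφ.E2 w k₀ hk1 hk2] at h1
      exact h1.trans (hA _ _ _)
  -- (c)
  have hC : ∀ (u v : V) (a : L.up u v),
      (φ * L.al).SameCycle (Sum.inr (⟨(u, v), a⟩, false)) (Sum.inl (v, true)) := by
    intro u v a
    have hv : (φ * L.al).SameCycle (Sum.inl (L.e.symm v, false)) (Sum.inl (v, true)) := by
      have h1 := hB (L.e.symm v)
      rw [Equiv.apply_symm_apply] at h1
      exact h1
    refine Equiv.Perm.SameCycle.trans ?_ hv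
    by_contra hne
    have hall : ∀ n : ℕ, ∃ b : L.up ((L.e.symm)^[n] u) v,
        (φ * L.al).SameCycle (Sum.inr (⟨(u, v), a⟩, false))
          (Sum.inr (⟨((L.e.symm)^[n] u, v), b⟩, false)) := by
      intro n
      induction n with
      | zero => exact ⟨a, Equiv.Perm.SameCycle.refl _ _⟩
      | succ n ih =>
        obtain ⟨b, hb⟩ := ih
        have h1 := hstep (Sum.inr (⟨((L.e.symm)^[n] u, v), b⟩, false))
        have h2 : L.al (Sum.inr (⟨((L.e.symm)^[n] u, v), b⟩, false)) =
          Sum.inr (⟨((L.e.symm)^[n] u, v), b⟩, true) := rfl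
        rw [h2] at h1
        by_cases hc : L.up (L.e.symm ((L.e.symm)^[n] u)) v
        · rw [hφ.U1 _ v b hc] at h1
          have h3 : (L.e.symm)^[n + 1] u = L.e.symm ((L.e.symm)^[n] u) :=
            Function.iterate_succ_apply' _ _ _
          rw [h3]
          exact ⟨hc, hb.trans h1⟩
        · rw [hφ.U2 _ v b hc] at h1
          exact absurd (hb.trans h1) hne
    have hr0 : L.r0 < L.row v := by
      have h1 := hL.up_row u v a
      have h2 := (hL.bnd u).1
      omega
    obtain ⟨u₀, ⟨hu1, hu2⟩, _⟩ := hL.dl v hr0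
    have h4 : L.row (L.e.symm u₀) = L.row u := by
      have h5 := hL.up_row u v a
      have h6 := hL.up_row u₀ v hu1
      rw [hrs]
      omega
    obtain ⟨n, hn⟩ := hL.cyc (L.e.symm u₀) u h4
    obtain ⟨b, _⟩ := hall n
    have h7 : (L.e.symm)^[n] u = L.e.symm u₀ := by
      rw [← hn]
      exact (Function.LeftInverse.iterate L.e.symm_apply_apply n) _
    rw [h7] at b
    exact hu2 b
  have hmain : ∀ d, (φ * L.al).SameCycle d (Sum.inl (L.vt d, true)) := by
    intro d
    rcases d with ⟨v, b⟩ | ⟨⟨⟨v, k⟩, a⟩, b⟩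
    · cases b
      · exact hB v
      · exact Equiv.Perm.SameCycle.refl _ _
    · cases b
      · exact hC v k a
      · exact hA v k a
  intro d e
  constructor
  · intro h
    have h1 := hmain d
    have h2 := hmain e
    rw [← h] at h2
    exact h1.trans h2.symm
  · intro h
    obtain ⟨i, hi⟩ : ∃ i : ℕ, ((φ * L.al) ^ i) d = e := by
      obtain ⟨i, _, hi⟩ := h.exists_pow_eq'
      exact ⟨i, hi⟩
    clear h
    subst hi
    induction i with
    | zero => rfl
    | succ n ih =>
      rw [pow_succ', Equiv.Perm.mul_apply, hvσ]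
      exact ih

end Pool.Agent.Helper49.UB
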